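import Mathlib

set_option autoImplicit false

namespace Pool.Agent.H.MP_72bf7f_co

open Finset

theorem sum_pow_card {β : Type} [DecidableEq β] (s : Finset β) (x : ℝ) :
    ∑ C ∈ s.powerset, x ^ C.card = (1 + x) ^ s.card := by
  have := Finset.sum_pow_mul_eq_add_pow x 1 s
  simp only [one_pow, mul_one] at this
  rw [this, add_comm]

theorem small_sets (n a : ℕ) (w : ℝ) (h0 : 0 < w) (h1 : w ≤ 1) :
    (((univ : Finset (Finset (Fin n))).filter (fun C => a * C.card ≤ n)).card : ℝ) ≤
      ((1 + w ^ a) / w) ^ n := by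
  rw [div_pow, le_div_iff₀ (by positivity)]
  have h := sum_pow_card (univ : Finset (Fin n)) (w ^ a)
  rw [powerset_univ, card_univ, Fintype.card_fin] at h
  rw [← h, ← nsmul_eq_mul, ← sum_const]
  refine le_trans (sum_le_sum fun C hC => ?_)
    (sum_le_sum_of_subset_of_nonneg (filter_subset _ _) fun _ _ _ => by positivity)
  rw [← pow_mul]
  exact pow_le_pow_of_le_one h0.le h1 (mem_filter.1 hC).2

theorem card_sup {β : Type} [Fintype β] [DecidableEq β] (S : Finset β) :
    (((univ : Finset (Finset β)).filter (fun A => S ⊆ A)).card : ℝ) =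
      2 ^ Fintype.card β * (1 / 2) ^ S.card := by
  have : (univ : Finset (Finset β)).filter (fun A => S ⊆ A) = Icc S univ := by
    ext A; simp
  rw [this, card_Icc_finset (subset_univ _), card_univ]
  obtain ⟨d, hd⟩ := Nat.exists_eq_add_of_le (card_le_univ S)
  rw [hd, Nat.add_sub_cancel_left]
  push_cast
  rw [pow_add, one_div, inv_pow]
  field_simp

theorem heavy {β : Type} [Fintype β] [DecidableEq β] (n : ℕ) (p q : Fin n → β)
    (hp : Function.Injective p) (hq : Function.Injective q) (hpq : ∀ y z, p y ≠ q z) :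
    (((univ : Finset (Finset β)).filter
      (fun A => n < 3 * (univ.filter (fun y => p y ∈ A ∧ q y ∈ A)).card)).card : ℝ) ≤
      2 ^ Fintype.card β * (983 / 1000) ^ n := by
  have key : ∑ A : Finset β, ((8 / 7 : ℝ) ^ 3) ^ (univ.filter (fun y => p y ∈ A ∧ q y ∈ A)).card =
      2 ^ Fintype.card β * (1 + (169 / 343 : ℝ) / 4) ^ n := by
    have e : ∀ A : Finset β, ((8 / 7 : ℝ) ^ 3) ^ (univ.filter (fun y => p y ∈ A ∧ q y ∈ A)).card =
        ∑ C : Finset (Fin n), if C.image p ∪ C.image q ⊆ A then (169 / 343 : ℝ) ^ C.card else 0 := by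
      intro A
      rw [show ((8 / 7 : ℝ) ^ 3) = 1 + 169 / 343 by norm_num, ← sum_pow_card, ← sum_filter]
      refine sum_congr ?_ fun _ _ => rfl
      ext C
      simp only [mem_powerset, mem_filter, mem_univ, true_and, union_subset_iff, image_subset_iff]
      constructor
      · intro h
        exact ⟨fun y hy => (mem_filter.1 (h hy)).2.1, fun y hy => (mem_filter.1 (h hy)).2.2⟩
      · intro h y hy
        exact mem_filter.2 ⟨mem_univ _, h.1 y hy, h.2 y hy⟩
    simp_rw [e]
    rw [sum_comm]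
    have h := sum_pow_card (univ : Finset (Fin n)) ((169 / 343 : ℝ) / 4)
    rw [powerset_univ, card_univ, Fintype.card_fin] at h
    rw [← h, mul_sum]
    refine sum_congr rfl fun C _ => ?_
    rw [← sum_filter, sum_const, nsmul_eq_mul, card_sup, card_union_of_disjoint,
      card_image_of_injective _ hp, card_image_of_injective _ hq]
    · rw [← two_mul, pow_mul, mul_assoc, ← mul_pow]
      norm_num
    · rw [disjoint_left]
      intro a h1 h2
      obtain ⟨y, -, rfl⟩ := mem_image.1 h1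
      obtain ⟨z, -, hz⟩ := mem_image.1 h2
      exact hpq _ _ hz.symm
  have h2 : (((univ : Finset (Finset β)).filter
      (fun A => n < 3 * (univ.filter (fun y => p y ∈ A ∧ q y ∈ A)).card)).card : ℝ) *
      (8 / 7) ^ n ≤ 2 ^ Fintype.card β * (1 + (169 / 343 : ℝ) / 4) ^ n := by
    rw [← key, ← nsmul_eq_mul, ← sum_const]
    refine le_trans (sum_le_sum fun C hC => ?_)
      (sum_le_sum_of_subset_of_nonneg (filter_subset _ _) fun _ _ _ => by positivity)
    rw [← pow_mul]
    exact pow_le_pow_right₀ (by norm_num) (mem_filter.1 hC).2.le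
  have h3 : (1 + (169 / 343 : ℝ) / 4) ^ n ≤ (983 / 1000) ^ n * (8 / 7) ^ n := by
    rw [← mul_pow]
    exact pow_le_pow_left₀ (by norm_num) (by norm_num) _
  refine le_of_mul_le_mul_right (h2.trans ?_) (by positivity : (0 : ℝ) < (8 / 7) ^ n)
  rw [mul_assoc]
  exact mul_le_mul_of_nonneg_left h3 (by positivity)

theorem numer (n r c g N : ℕ) (h : n = r + c + g + 1) (hc : c ≤ r) (H1 : n ^ 3 * N ≤ 2 ^ n)
    (H2 : n ^ 8 ≤ 2 ^ n) :
    n.choose r * n.choose c * N ^ g ≤ n ^ 3 * (2 ^ (r * c) * 2 ^ (n * g)) := by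
  have hn : 1 ≤ n := by omega
  have a1 : n.choose r ≤ n ^ (c + g + 1) := by
    rw [← Nat.choose_symm (by omega : r ≤ n), show n - r = c + g + 1 by omega]
    exact Nat.choose_le_pow _ _
  have a2 : n.choose c ≤ n ^ c := Nat.choose_le_pow _ _
  have a3 : (n ^ 3 * N) ^ g ≤ 2 ^ (n * g) := by
    rw [pow_mul]; exact Nat.pow_le_pow_left H1 _
  have a4 : n.choose r * n.choose c * N ^ g ≤ n ^ (2 * c + g + 1) * N ^ g := by
    refine Nat.mul_le_mul_right _ ((Nat.mul_le_mul a1 a2).trans ?_)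
    rw [← pow_add]
    exact Nat.pow_le_pow_right hn (by omega)
  refine a4.trans ?_
  by_cases h4 : n ≤ 4 * r
  · have b1 : n ^ 2 ≤ 2 ^ r := by
      refine (Nat.pow_le_pow_iff_left (by norm_num : 4 ≠ 0)).1 ?_
      rw [← pow_mul, ← pow_mul]
      exact H2.trans (Nat.pow_le_pow_right (by norm_num) (by omega))
    have b2 : n ^ (2 * c) ≤ 2 ^ (r * c) := by
      rw [pow_mul, pow_mul]; exact Nat.pow_le_pow_left b1 _
    calc n ^ (2 * c + g + 1) * N ^ g ≤ n ^ (2 * c + 3 * g + 3) * N ^ g :=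
          Nat.mul_le_mul_right _ (Nat.pow_le_pow_right hn (by omega))
      _ = n ^ 3 * (n ^ (2 * c) * (n ^ 3 * N) ^ g) := by rw [mul_pow, ← pow_mul]; ring
      _ ≤ _ := Nat.mul_le_mul_left _ (Nat.mul_le_mul b2 a3)
  · calc n ^ (2 * c + g + 1) * N ^ g ≤ n ^ (3 * g + 3) * N ^ g :=
          Nat.mul_le_mul_right _ (Nat.pow_le_pow_right hn (by omega))
      _ = n ^ 3 * (1 * (n ^ 3 * N) ^ g) := by rw [mul_pow, ← pow_mul]; ring
      _ ≤ _ := Nat.mul_le_mul_left _ (Nat.mul_le_mul (Nat.one_le_two_pow) a3)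

theorem numer' (n r c N : ℕ) (h : r + c + 1 ≤ n) (H1 : n ^ 3 * N ≤ 2 ^ n)
    (H2 : n ^ 8 ≤ 2 ^ n) :
    n.choose r * (n.choose c * (2 ^ (n * n - (n - r) * (n - c)) * N ^ (n - 1 - r - c))) ≤
      n ^ 3 * 2 ^ (n * n - n) := by
  obtain ⟨g, hg⟩ := Nat.exists_eq_add_of_le h
  have h1 : n.choose r * n.choose c * N ^ g ≤ n ^ 3 * (2 ^ (r * c) * 2 ^ (n * g)) := by
    rcases le_total c r with hc | hc
    · exact numer n r c g N (by omega) hc H1 H2
    · have := numer n c r g N (by omega) hc H1 H2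
      rwa [mul_comm (n.choose c), mul_comm c r] at this
  have e1 : n - 1 - r - c = g := by omega
  have e2 : n * n - (n - r) * (n - c) + (r * c + n * g) = n * n - n := by
    rw [show n - r = c + 1 + g by omega, show n - c = r + 1 + g by omega]
    have f1 : n * n = (c + 1 + g) * (r + 1 + g) + (r * r + c * c + r * c + (r + c) * (1 + g)) := by
      rw [hg]; ring
    have f2 : n * n = n + (r * r + c * c + r * c + (r + c) * (1 + g) + (r * c + n * g)) := by
      rw [hg]; ring
    omega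
  rw [e1, ← e2, pow_add, pow_add]
  calc _ = 2 ^ (n * n - (n - r) * (n - c)) * (n.choose r * n.choose c * N ^ g) := by ring
    _ ≤ 2 ^ (n * n - (n - r) * (n - c)) * (n ^ 3 * (2 ^ (r * c) * 2 ^ (n * g))) :=
        Nat.mul_le_mul_left _ h1
    _ = _ := by ring

end Pool.Agent.H.MP_72bf7f_co
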