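import Pool.Agent.H.MP_72bf7f_co.A

set_option autoImplicit false

namespace Pool.Agent.H.MP_72bf7f_co

open Finset

def Cov (n : ℕ) (S : Finset (Fin n × Fin n)) : Prop :=
  ∃ k, k < n ∧ ∃ R C : Fin k → Finset (Fin n), ∀ i j, (i, j) ∈ S ↔ ∃ l, i ∈ R l ∧ j ∈ C l

def light (n : ℕ) : Finset (Finset (Fin n) × Finset (Fin n)) :=
  (univ.filter (fun C => 200 * C.card ≤ n)) ×ˢ (univ.filter (fun C => 3 * C.card ≤ n)) ∪
    (univ.filter (fun C => 3 * C.card ≤ n)) ×ˢ (univ.filter (fun C => 200 * C.card ≤ n))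

theorem light_card (n : ℕ) : ((light n).card : ℝ) ≤ 2 * (196 / 100) ^ n := by
  have h1 := small_sets n 200 (39 / 40) (by norm_num) (by norm_num)
  have h2 := small_sets n 3 (4 / 5) (by norm_num) (by norm_num)
  have h3 : ((1 + (39 / 40 : ℝ) ^ 200) / (39 / 40)) ^ n * ((1 + (4 / 5 : ℝ) ^ 3) / (4 / 5)) ^ n ≤
      (196 / 100) ^ n := by
    rw [← mul_pow]
    exact pow_le_pow_left₀ (by positivity) (by norm_num) _
  have h4 := (mul_le_mul h1 h2 (by positivity) (by positivity)).trans h3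
  have h5 : ((light n).card : ℝ) ≤ _ := Nat.cast_le.2 (card_union_le _ _)
  rw [card_product, card_product] at h5
  push_cast at h5
  nlinarith

def enc (n : ℕ) (P Q : Finset (Fin n)) : Finset (Finset (Fin n × Fin n)) :=
  ((Pᶜ ×ˢ Qᶜ)ᶜ.powerset ×ˢ Fintype.piFinset (fun _ : Fin (n - 1 - P.card - Q.card) => light n)).image
    (fun z => z.1 ∪ (Pᶜ ×ˢ Qᶜ).filter (fun e => ∃ l, e.1 ∈ (z.2 l).1 ∧ e.2 ∈ (z.2 l).2))

theorem enc_card (n : ℕ) (P Q : Finset (Fin n)) : (enc n P Q).card ≤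
    2 ^ (n * n - (n - P.card) * (n - Q.card)) * (light n).card ^ (n - 1 - P.card - Q.card) := by
  refine card_image_le.trans ?_
  rw [card_product, card_powerset, card_compl, card_product, card_compl, card_compl,
    Fintype.card_piFinset]
  simp

def B1 (n : ℕ) (S : Finset (Fin n × Fin n)) : Prop :=
  ∃ x x' : Fin n, x ≠ x' ∧ n < 3 * (univ.filter (fun y => (x, y) ∈ S ∧ (x', y) ∈ S)).card

def B2 (n : ℕ) (S : Finset (Fin n × Fin n)) : Prop :=
  ∃ x x' : Fin n, x ≠ x' ∧ n < 3 * (univ.filter (fun y => (y, x) ∈ S ∧ (y, x') ∈ S)).card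

def B3 (n : ℕ) (S : Finset (Fin n × Fin n)) : Prop :=
  ∃ R C : Finset (Fin n), n < 200 * R.card ∧ n < 200 * C.card ∧ R ×ˢ C ⊆ S

theorem mem_enc (n : ℕ) (S : Finset (Fin n × Fin n)) (h : Cov n S) (h1 : ¬ B1 n S)
    (h2 : ¬ B2 n S) (h3 : ¬ B3 n S) :
    ∃ P Q : Finset (Fin n), P.card + Q.card + 1 ≤ n ∧ S ∈ enc n P Q := by
  classical
  obtain ⟨k, hk, R, C, hS⟩ := h
  set Tr : Finset (Fin k) := univ.filter (fun l => (R l).card ≤ 1) with hTr
  set Tc : Finset (Fin k) := univ.filter (fun l => ¬ (R l).card ≤ 1 ∧ (C l).card ≤ 1) with hTc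
  set T : Finset (Fin k) := univ.filter (fun l => ¬ (R l).card ≤ 1 ∧ ¬ (C l).card ≤ 1) with hT
  have c1 : (Tr.biUnion R).card ≤ Tr.card := by
    simpa using card_biUnion_le_card_mul Tr R 1 (fun l hl => (mem_filter.1 hl).2)
  have c2 : (Tc.biUnion C).card ≤ Tc.card := by
    simpa using card_biUnion_le_card_mul Tc C 1 (fun l hl => (mem_filter.1 hl).2.2)
  have c3 : Tr.card + Tc.card + T.card = k := by
    have e1 := card_filter_add_card_filter_not (s := (univ : Finset (Fin k)))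
      (fun l => (R l).card ≤ 1)
    have e2 := card_filter_add_card_filter_not
      (s := (univ : Finset (Fin k)).filter (fun l => ¬ (R l).card ≤ 1)) (fun l => (C l).card ≤ 1)
    rw [filter_filter, filter_filter] at e2
    rw [card_univ, Fintype.card_fin] at e1
    rw [hTr, hTc, hT]
    omega
  refine ⟨Tr.biUnion R, Tc.biUnion C, by omega, ?_⟩
  obtain ⟨e⟩ : Nonempty (T ↪ Fin (n - 1 - (Tr.biUnion R).card - (Tc.biUnion C).card)) :=
    Function.Embedding.nonempty_of_card_le (by simp only [Fintype.card_coe, Fintype.card_fin]; omega)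
  have hl : ∀ l ∈ T, (R l, C l) ∈ light n := by
    intro l hl
    obtain ⟨-, a1, a2⟩ := mem_filter.1 hl
    have b1 : 3 * (C l).card ≤ n := by
      by_contra hh
      obtain ⟨x, hx, x', hx', hne⟩ := one_lt_card.1 (not_le.1 a1)
      refine h1 ⟨x, x', hne, (not_le.1 hh).trans_le (Nat.mul_le_mul_left _ (card_le_card ?_))⟩
      intro y hy
      exact mem_filter.2 ⟨mem_univ _, (hS _ _).2 ⟨l, hx, hy⟩, (hS _ _).2 ⟨l, hx', hy⟩⟩
    have b2 : 3 * (R l).card ≤ n := by
      by_contra hh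
      obtain ⟨x, hx, x', hx', hne⟩ := one_lt_card.1 (not_le.1 a2)
      refine h2 ⟨x, x', hne, (not_le.1 hh).trans_le (Nat.mul_le_mul_left _ (card_le_card ?_))⟩
      intro y hy
      exact mem_filter.2 ⟨mem_univ _, (hS _ _).2 ⟨l, hy, hx⟩, (hS _ _).2 ⟨l, hy, hx'⟩⟩
    have b3 : 200 * (R l).card ≤ n ∨ 200 * (C l).card ≤ n := by
      by_contra hh
      push Not at hh
      refine h3 ⟨R l, C l, hh.1, hh.2, ?_⟩
      rintro ⟨x, y⟩ hxy
      exact (hS _ _).2 ⟨l, (mem_product.1 hxy).1, (mem_product.1 hxy).2⟩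
    simp only [light, mem_union, mem_product, mem_filter, mem_univ, true_and]
    tauto
  refine mem_image.2 ⟨(S \ ((Tr.biUnion R)ᶜ ×ˢ (Tc.biUnion C)ᶜ),
    Function.extend e (fun l => (R l, C l)) (fun _ => (∅, ∅))), ?_, ?_⟩
  · refine mem_product.2 ⟨mem_powerset.2 fun z hz => mem_compl.2 (mem_sdiff.1 hz).2, ?_⟩
    refine Fintype.mem_piFinset.2 fun j => ?_
    by_cases hj : ∃ l, e l = j
    · obtain ⟨l, rfl⟩ := hj
      simp only [e.injective.extend_apply]
      exact hl _ l.2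
    · simp only [Function.extend_apply' _ _ _ hj]
      simp [light]
  · ext ⟨x, y⟩
    simp only [mem_union, mem_sdiff, mem_filter]
    constructor
    · rintro (h | ⟨-, j, a1, a2⟩)
      · exact h.1
      · by_cases hj : ∃ l, e l = j
        · obtain ⟨l, rfl⟩ := hj
          rw [e.injective.extend_apply] at a1 a2
          exact (hS _ _).2 ⟨l, a1, a2⟩
        · rw [Function.extend_apply' _ _ _ hj] at a1
          simp at a1
    · intro h
      by_cases hz : (x, y) ∈ (Tr.biUnion R)ᶜ ×ˢ (Tc.biUnion C)ᶜ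
      · right
        refine ⟨hz, ?_⟩
        obtain ⟨l, a1, a2⟩ := (hS _ _).1 h
        obtain ⟨z1, z2⟩ := mem_product.1 hz
        have b1 : ¬ (R l).card ≤ 1 := fun hh =>
          mem_compl.1 z1 (mem_biUnion.2 ⟨l, mem_filter.2 ⟨mem_univ _, hh⟩, a1⟩)
        have b2 : ¬ (C l).card ≤ 1 := fun hh =>
          mem_compl.1 z2 (mem_biUnion.2 ⟨l, mem_filter.2 ⟨mem_univ _, b1, hh⟩, a2⟩)
        refine ⟨e ⟨l, mem_filter.2 ⟨mem_univ _, b1, b2⟩⟩, ?_⟩
        rw [e.injective.extend_apply]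
        exact ⟨a1, a2⟩
      · exact Or.inl ⟨h, hz⟩

open Classical in
theorem card_B1 (n : ℕ) : ((univ.filter (B1 n)).card : ℝ) ≤
    n ^ 2 * (2 ^ (n * n) * (983 / 1000) ^ n) := by
  have : univ.filter (B1 n) ⊆ (univ : Finset (Fin n)).offDiag.biUnion (fun z => univ.filter
      (fun S => n < 3 * (univ.filter (fun y => (z.1, y) ∈ S ∧ (z.2, y) ∈ S)).card)) := by
    intro S hS
    obtain ⟨x, x', h1, h2⟩ := (mem_filter.1 hS).2
    exact mem_biUnion.2 ⟨(x, x'), by simpa using h1, mem_filter.2 ⟨mem_univ _, h2⟩⟩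
  refine (Nat.cast_le.2 ((card_le_card this).trans card_biUnion_le)).trans ?_
  push_cast
  refine (sum_le_card_nsmul _ _ (2 ^ (n * n) * (983 / 1000) ^ n) fun z hz => ?_).trans ?_
  · have := heavy n (fun y => (z.1, y)) (fun y => (z.2, y)) (fun _ _ h => (Prod.ext_iff.1 h).2)
      (fun _ _ h => (Prod.ext_iff.1 h).2)
      (fun _ _ h => (mem_offDiag.1 hz).2.2 (Prod.ext_iff.1 h).1)
    simpa using this
  · rw [nsmul_eq_mul]
    refine mul_le_mul_of_nonneg_right ?_ (by positivity)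
    have := card_le_univ (univ : Finset (Fin n)).offDiag
    simp only [Fintype.card_prod, Fintype.card_fin] at this
    exact_mod_cast (by nlinarith : (univ : Finset (Fin n)).offDiag.card ≤ n ^ 2)

open Classical in
theorem card_B2 (n : ℕ) : ((univ.filter (B2 n)).card : ℝ) ≤
    n ^ 2 * (2 ^ (n * n) * (983 / 1000) ^ n) := by
  have : univ.filter (B2 n) ⊆ (univ : Finset (Fin n)).offDiag.biUnion (fun z => univ.filter
      (fun S => n < 3 * (univ.filter (fun y => (y, z.1) ∈ S ∧ (y, z.2) ∈ S)).card)) := by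
    intro S hS
    obtain ⟨x, x', h1, h2⟩ := (mem_filter.1 hS).2
    exact mem_biUnion.2 ⟨(x, x'), by simpa using h1, mem_filter.2 ⟨mem_univ _, h2⟩⟩
  refine (Nat.cast_le.2 ((card_le_card this).trans card_biUnion_le)).trans ?_
  push_cast
  refine (sum_le_card_nsmul _ _ (2 ^ (n * n) * (983 / 1000) ^ n) fun z hz => ?_).trans ?_
  · have := heavy n (fun y => (y, z.1)) (fun y => (y, z.2)) (fun _ _ h => (Prod.ext_iff.1 h).1)
      (fun _ _ h => (Prod.ext_iff.1 h).1)
      (fun _ _ h => (mem_offDiag.1 hz).2.2 (Prod.ext_iff.1 h).2)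
    simpa using this
  · rw [nsmul_eq_mul]
    refine mul_le_mul_of_nonneg_right ?_ (by positivity)
    have := card_le_univ (univ : Finset (Fin n)).offDiag
    simp only [Fintype.card_prod, Fintype.card_fin] at this
    exact_mod_cast (by nlinarith : (univ : Finset (Fin n)).offDiag.card ≤ n ^ 2)

open Classical in
theorem card_B3 (n : ℕ) (hn : 120000 ≤ n) : ((univ.filter (B3 n)).card : ℝ) ≤
    2 ^ (n * n) * (1 / 2) ^ n := by
  have : univ.filter (B3 n) ⊆ ((univ : Finset (Finset (Fin n) × Finset (Fin n))).filter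
      (fun z => n < 200 * z.1.card ∧ n < 200 * z.2.card)).biUnion
      (fun z => univ.filter (fun S => z.1 ×ˢ z.2 ⊆ S)) := by
    intro S hS
    obtain ⟨R, C, h1, h2, h3⟩ := (mem_filter.1 hS).2
    exact mem_biUnion.2 ⟨(R, C), by simpa using ⟨h1, h2⟩, mem_filter.2 ⟨mem_univ _, h3⟩⟩
  refine (Nat.cast_le.2 ((card_le_card this).trans card_biUnion_le)).trans ?_
  push_cast
  refine (sum_le_card_nsmul _ _ (2 ^ (n * n) * (1 / 2) ^ (3 * n)) fun z hz => ?_).trans ?_
  · rw [card_sup, card_product]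
    simp only [Fintype.card_prod, Fintype.card_fin]
    refine mul_le_mul_of_nonneg_left (pow_le_pow_of_le_one (by norm_num) (by norm_num) ?_)
      (by positivity)
    obtain ⟨-, h1, h2⟩ := mem_filter.1 hz
    have := Nat.mul_le_mul h1.le h2.le
    nlinarith
  · rw [nsmul_eq_mul]
    have := card_le_univ ((univ : Finset (Finset (Fin n) × Finset (Fin n))).filter
      (fun z => n < 200 * z.1.card ∧ n < 200 * z.2.card))
    simp only [Fintype.card_prod, Fintype.card_finset, Fintype.card_fin] at this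
    have h : (_ : ℝ) ≤ _ := Nat.cast_le.2 this
    push_cast at h
    refine (mul_le_mul_of_nonneg_right h (by positivity)).trans (le_of_eq ?_)
    rw [show 3 * n = n + n + n by ring, pow_add, pow_add, one_div, inv_pow]
    field_simp

open Classical in
theorem card_good (n : ℕ) (H1 : n ^ 3 * (light n).card ≤ 2 ^ n) (H2 : n ^ 8 ≤ 2 ^ n) :
    (univ.filter (fun S => Cov n S ∧ ¬ B1 n S ∧ ¬ B2 n S ∧ ¬ B3 n S)).card ≤
      (n + 1) * ((n + 1) * (n ^ 3 * 2 ^ (n * n - n))) := by
  have : univ.filter (fun S => Cov n S ∧ ¬ B1 n S ∧ ¬ B2 n S ∧ ¬ B3 n S) ⊆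
      (univ : Finset (Fin n)).powerset.biUnion (fun P => (univ : Finset (Fin n)).powerset.biUnion
        (fun Q => if P.card + Q.card + 1 ≤ n then enc n P Q else ∅)) := by
    intro S hS
    obtain ⟨-, a, b, c, d⟩ := mem_filter.1 hS
    obtain ⟨P, Q, h1, h2⟩ := mem_enc n S a b c d
    refine mem_biUnion.2 ⟨P, by simp, mem_biUnion.2 ⟨Q, by simp, ?_⟩⟩
    rwa [if_pos h1]
  refine ((card_le_card this).trans card_biUnion_le).trans ?_
  set t : ℕ → ℕ → ℕ := fun r c => if r + c + 1 ≤ n then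
    2 ^ (n * n - (n - r) * (n - c)) * (light n).card ^ (n - 1 - r - c) else 0 with ht
  have h1 : ∀ P : Finset (Fin n), ((univ : Finset (Fin n)).powerset.biUnion
      (fun Q => if P.card + Q.card + 1 ≤ n then enc n P Q else ∅)).card ≤
      ∑ c ∈ range (n + 1), n.choose c * t P.card c := by
    intro P
    refine card_biUnion_le.trans ?_
    have := sum_powerset_apply_card (t P.card) (x := (univ : Finset (Fin n)))
    simp only [card_univ, Fintype.card_fin, smul_eq_mul] at this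
    rw [← this]
    refine sum_le_sum fun Q _ => ?_
    simp only [ht]
    split_ifs
    · exact enc_card n P Q
    · simp
  refine (sum_le_sum fun P _ => h1 P).trans ?_
  have := sum_powerset_apply_card (fun r => ∑ c ∈ range (n + 1), n.choose c * t r c)
    (x := (univ : Finset (Fin n)))
  simp only [card_univ, Fintype.card_fin, smul_eq_mul] at this
  rw [this]
  refine (sum_le_card_nsmul _ _ ((n + 1) * (n ^ 3 * 2 ^ (n * n - n))) fun r _ => ?_).trans
    (by simp)
  rw [mul_sum]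
  refine (sum_le_card_nsmul _ _ (n ^ 3 * 2 ^ (n * n - n)) fun c _ => ?_).trans (by simp)
  simp only [ht]
  split_ifs with h
  · exact numer' n r c _ h H1 H2
  · simp

end Pool.Agent.H.MP_72bf7f_co
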