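import Pool.Agent.H.MP_72bf7f_co.B

set_option autoImplicit false

namespace Pool.Agent.H.MP_72bf7f_co

open Finset Filter Topology

/-- Schein rank (Boolean rank) of a Boolean matrix -/
noncomputable def schein {n : ℕ} (A : Matrix (Fin n) (Fin n) Bool) : ℕ :=
  sInf {k | ∃ u v : Fin k → Fin n → Bool,
    ∀ i j, A i j = true ↔ ∃ l, u l i = true ∧ v l j = true}

/-- probability that a uniform `n × n` Boolean matrix has Schein rank less than `n` -/
noncomputable def prob (n : ℕ) : ℝ :=
  (Nat.card {A : Matrix (Fin n) (Fin n) Bool // schein A < n} : ℝ) / 2 ^ (n ^ 2)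

end Pool.Agent.H.MP_72bf7f_co
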