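import Pool.Agent.H.MP_72bf7f_co.C

set_option autoImplicit false

namespace Pool.Agent.H.MP_72bf7f_co

open Finset Filter Topology

theorem schein_spec {n : ℕ} (A : Matrix (Fin n) (Fin n) Bool) :
    ∃ u v : Fin (schein A) → Fin n → Bool,
      ∀ i j, A i j = true ↔ ∃ l, u l i = true ∧ v l j = true := by
  have : Set.Nonempty {k | ∃ u v : Fin k → Fin n → Bool,
      ∀ i j, A i j = true ↔ ∃ l, u l i = true ∧ v l j = true} :=
    ⟨n, fun l i => decide (l = i), fun l j => A l j, fun i j => by simp⟩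
  exact Nat.sInf_mem this

open Classical in
theorem card_le_cov (n : ℕ) : Nat.card {A : Matrix (Fin n) (Fin n) Bool // schein A < n} ≤
    (univ.filter (Cov n)).card := by
  rw [← Fintype.card_coe, ← Nat.card_eq_fintype_card]
  refine Nat.card_le_card_of_injective
    (fun A => ⟨univ.filter (fun e => A.1 e.1 e.2 = true), mem_filter.2 ⟨mem_univ _, ?_⟩⟩) ?_
  · obtain ⟨u, v, h⟩ := schein_spec A.1
    exact ⟨_, A.2, fun l => univ.filter (fun i => u l i = true),
      fun l => univ.filter (fun i => v l i = true), fun i j => by simpa using h i j⟩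
  · intro A B h
    refine Subtype.ext (Matrix.ext fun i j => ?_)
    have := Finset.ext_iff.1 (Subtype.ext_iff.1 h) (i, j)
    simpa using this

theorem lower (k : ℕ) : (1 / 2 : ℝ) ^ (k + 1) ≤ prob (k + 1) := by
  have h : Nat.card (Fin k → Fin (k + 1) → Bool) ≤
      Nat.card {A : Matrix (Fin (k + 1)) (Fin (k + 1)) Bool // schein A < k + 1} := by
    refine Nat.card_le_card_of_injective
      (fun B => ⟨Matrix.of (Fin.cons (fun _ => false) B), Nat.lt_succ_of_le (Nat.sInf_le ?_)⟩) ?_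
    · refine ⟨fun l i => decide (l.succ = i), B, fun i j => ?_⟩
      refine Fin.cases ?_ (fun i => ?_) i
      · simp
      · simp
    · intro B B' h
      funext i j
      have := congrFun (congrFun (Subtype.ext_iff.1 h) i.succ) j
      simpa using this
  rw [prob, le_div_iff₀ (by positivity)]
  refine le_trans (le_of_eq ?_) (Nat.cast_le.2 h)
  simp only [Nat.card_eq_fintype_card, Fintype.card_pi, Fintype.card_bool, prod_const, card_univ,
    Fintype.card_fin]
  push_cast
  rw [← pow_mul, show (k + 1) ^ 2 = (k + 1) + (k + 1) * k by ring, pow_add 2 (k + 1), one_div,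
    inv_pow]
  field_simp

theorem ev (k : ℕ) (r ε : ℝ) (h0 : 0 < r) (h1 : r < 1) (hε : 0 < ε) :
    ∀ᶠ n : ℕ in atTop, (n : ℝ) ^ k * r ^ n ≤ ε :=
  (tendsto_pow_const_mul_const_pow_of_abs_lt_one k (by rwa [abs_of_pos h0])).eventually
    (ge_mem_nhds hε)

theorem upper : ∀ᶠ n : ℕ in atTop, prob n ≤ (99 / 100) ^ n := by
  classical
  filter_upwards [ev 3 (98 / 100) (1 / 2) (by norm_num) (by norm_num) (by norm_num),
    ev 8 (1 / 2) 1 (by norm_num) (by norm_num) (by norm_num),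
    ev 2 (983 / 990) (1 / 4) (by norm_num) (by norm_num) (by norm_num),
    ev 5 (50 / 99) (1 / 20) (by norm_num) (by norm_num) (by norm_num),
    eventually_ge_atTop 120000] with n e1 e2 e3 e4 hn
  have H1 : n ^ 3 * (light n).card ≤ 2 ^ n := by
    have h := light_card n
    have : (n : ℝ) ^ 3 * (light n).card ≤ 2 ^ n := by
      refine (mul_le_mul_of_nonneg_left h (by positivity)).trans ?_
      rw [show (196 / 100 : ℝ) = 98 / 100 * 2 by norm_num, mul_pow]
      have : (0 : ℝ) < 2 ^ n := by positivity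
      nlinarith
    exact_mod_cast this
  have H2 : n ^ 8 ≤ 2 ^ n := by
    have : (n : ℝ) ^ 8 ≤ 2 ^ n := by
      rw [one_div, inv_pow, ← div_eq_mul_inv, div_le_one (by positivity)] at e2
      exact e2
    exact_mod_cast this
  have g := card_good n H1 H2
  have g' : ((univ.filter (fun S => Cov n S ∧ ¬ B1 n S ∧ ¬ B2 n S ∧ ¬ B3 n S)).card : ℝ) ≤
      4 * n ^ 5 * (2 ^ (n * n) * (1 / 2) ^ n) := by
    refine (Nat.cast_le.2 g).trans ?_
    push_cast
    have e : (2 : ℝ) ^ (n * n - n) = 2 ^ (n * n) * (1 / 2) ^ n := by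
      obtain ⟨d, hd⟩ := Nat.exists_eq_add_of_le (Nat.le_mul_self n)
      rw [hd, Nat.add_sub_cancel_left, pow_add, one_div, inv_pow]
      field_simp
    rw [e]
    have h1 : (n : ℝ) + 1 ≤ 2 * n := by
      have : (1 : ℝ) ≤ n := by exact_mod_cast (by omega : 1 ≤ n)
      linarith
    calc _ ≤ (2 * n : ℝ) * ((2 * n) * (n ^ 3 * (2 ^ (n * n) * (1 / 2) ^ n))) := by gcongr
      _ = _ := by ring
  have sub : univ.filter (Cov n) ⊆ univ.filter (B1 n) ∪ univ.filter (B2 n) ∪ univ.filter (B3 n) ∪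
      univ.filter (fun S => Cov n S ∧ ¬ B1 n S ∧ ¬ B2 n S ∧ ¬ B3 n S) := by
    intro S hS
    simp only [mem_union, mem_filter, mem_univ, true_and] at hS ⊢
    tauto
  have c1 := (card_le_cov n).trans ((card_le_card sub).trans ((card_union_le _ _).trans
    (Nat.add_le_add_right ((card_union_le _ _).trans
      (Nat.add_le_add_right (card_union_le _ _) _)) _)))
  have c2 : (_ : ℝ) ≤ _ := Nat.cast_le.2 c1
  push_cast at c2
  have b1 := card_B1 n
  have b2 := card_B2 n
  have b3 := card_B3 n hn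
  rw [prob, div_le_iff₀ (by positivity), sq]
  have p1 : (983 / 1000 : ℝ) ^ n = (983 / 990) ^ n * (99 / 100) ^ n := by
    rw [← mul_pow]; norm_num
  have p2 : (1 / 2 : ℝ) ^ n = (50 / 99) ^ n * (99 / 100) ^ n := by
    rw [← mul_pow]; norm_num
  have p3 : (50 / 99 : ℝ) ^ n ≤ n ^ 5 * (50 / 99) ^ n :=
    le_mul_of_one_le_left (by positivity) (one_le_pow₀ (by exact_mod_cast (by omega : 1 ≤ n)))
  rw [p1] at b1 b2
  rw [p2] at b3 g'
  set T : ℝ := (99 / 100) ^ n * 2 ^ (n * n) with hT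
  have hT0 : 0 < T := by positivity
  have q1 : (n : ℝ) ^ 2 * (2 ^ (n * n) * ((983 / 990) ^ n * (99 / 100) ^ n)) ≤ 1 / 4 * T := by
    calc _ = ((n : ℝ) ^ 2 * (983 / 990) ^ n) * T := by rw [hT]; ring
      _ ≤ _ := mul_le_mul_of_nonneg_right e3 hT0.le
  have q2 : (2 : ℝ) ^ (n * n) * ((50 / 99) ^ n * (99 / 100) ^ n) ≤ 1 / 20 * T := by
    calc _ = ((50 / 99 : ℝ) ^ n) * T := by rw [hT]; ring
      _ ≤ _ := mul_le_mul_of_nonneg_right (p3.trans e4) hT0.le
  have q3 : 4 * (n : ℝ) ^ 5 * (2 ^ (n * n) * ((50 / 99) ^ n * (99 / 100) ^ n)) ≤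
      4 * (1 / 20 * T) := by
    calc _ = 4 * (((n : ℝ) ^ 5 * (50 / 99) ^ n) * T) := by rw [hT]; ring
      _ ≤ _ := mul_le_mul_of_nonneg_left (mul_le_mul_of_nonneg_right e4 hT0.le) (by norm_num)
  linarith

end Pool.Agent.H.MP_72bf7f_co
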